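import Pool.Agent.helper12.KZ.Spec
import Pool.Agent.helper28.TY.YOS

set_option autoImplicit false

/-!
Project kz (MP_baa4d7_al), row KOS: sums over orbits (adapted from `Pool/Agent/helper28/TY/YOS.lean`).
-/

namespace Pool.Agent.KZ

open Pool.Agent.helper58.DC Pool.Agent.DI Pool.Agent.TY

theorem KOS_QH {p : ℕ} {Γ A : Type} [Group Γ] [Group A] {π : Γ →* A} {G' : Subgroup Γ} (hN : G'.Normal) (u : Γ)
    {Q : Subgroup Γ} (hQ : Q ∈ QH p π G') : Q.map (MulAut.conj u).toMonoidHom ∈ QH p π G' := by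
  obtain ⟨h1, h2, h3, h4⟩ := hQ
  obtain ⟨k1, k2, k3⟩ := YOS_QQ hN u (show Q ∈ QQ p G' from ⟨h1, h3, h4⟩)
  refine ⟨k1, ?_, k2, k3⟩
  intro x hx
  have h5 := h2 ((YOS_mem Q u x).1 hx)
  rw [MonoidHom.mem_ker] at h5 ⊢
  rw [map_mul, map_mul, map_inv] at h5
  have h6 : π x = π u * ((π u)⁻¹ * π x * π u) * (π u)⁻¹ := by group
  rw [h6, h5]
  group

theorem KOS (hKAN : KAN_stmt) : KOS_stmt := by
  classical
  intro p _ Γ A _ _ _ π G' hF T N hT hdiv
  have hN := hF.nor
  have hfin : (QH p π G').Finite := Set.toFinite _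
  letI : Fintype (QH p π G') := hfin.fintype
  letI : MulAction G' (QH p π G') :=
    { smul := fun u Q => ⟨Q.1.map (MulAut.conj (u : Γ)).toMonoidHom, KOS_QH hN (u : Γ) Q.2⟩
      one_smul := by
        intro Q
        apply Subtype.ext
        ext x
        change x ∈ Q.1.map (MulAut.conj ((1 : G') : Γ)).toMonoidHom ↔ x ∈ Q.1
        rw [YOS_mem]
        simp
      mul_smul := by
        intro u v Q
        apply Subtype.ext
        ext x
        change x ∈ Q.1.map (MulAut.conj ((u * v : G') : Γ)).toMonoidHom ↔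
          x ∈ (Q.1.map (MulAut.conj (v : Γ)).toMonoidHom).map (MulAut.conj (u : Γ)).toMonoidHom
        rw [YOS_mem, YOS_mem, YOS_mem]
        have e : ((u * v : G') : Γ)⁻¹ * x * ((u * v : G') : Γ) = (v : Γ)⁻¹ * ((u : Γ)⁻¹ * x * (u : Γ)) * (v : Γ) := by
          rw [Subgroup.coe_mul]
          group
        rw [e] }
  have hnc : ∀ Q : QH p π G', nz Q.1 = cz Q.1 := fun Q =>
    (hKAN Γ p G' Q.1 ⊤ (fun _ => 0) hN (fun x q hq => hF.cen x q (Q.2.2.1 hq)) Q.2.2.2.1 Q.2.2.2.2).1
  have hstab : ∀ Q : QH p π G', Nat.card (MulAction.stabilizer G' Q) = Nat.card ↥(G' ⊓ cz Q.1) := by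
    intro Q
    have h1 : MulAction.stabilizer G' Q = (cz Q.1).subgroupOf G' := by
      ext u
      rw [MulAction.mem_stabilizer_iff, Subgroup.mem_subgroupOf, ← hnc Q, Subgroup.mem_normalizer_iff]
      constructor
      · intro h x
        have h2 : Q.1.map (MulAut.conj (u : Γ)).toMonoidHom = Q.1 := congrArg Subtype.val h
        constructor
        · intro hx
          rw [← h2, YOS_mem]
          have e : (u : Γ)⁻¹ * ((u : Γ) * x * (u : Γ)⁻¹) * (u : Γ) = x := by group
          rw [e]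
          exact hx
        · intro hx
          rw [← h2, YOS_mem] at hx
          have e : (u : Γ)⁻¹ * ((u : Γ) * x * (u : Γ)⁻¹) * (u : Γ) = x := by group
          rwa [e] at hx
      · intro h
        apply Subtype.ext
        change Q.1.map (MulAut.conj (u : Γ)).toMonoidHom = Q.1
        ext x
        rw [YOS_mem, h]
        have e : (u : Γ) * ((u : Γ)⁻¹ * x * (u : Γ)) * (u : Γ)⁻¹ = x := by group
        rw [e]
    rw [h1, ← Subgroup.card_map_of_injective (f := G'.subtype) (K := (cz Q.1).subgroupOf G') G'.subtype_injective,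
      Subgroup.subgroupOf_map_subtype, inf_comm]
  have key := YOS_act (H := G') (α := QH p π G') (fun Q => T Q.1) N (fun u Q => hT u u.2 Q.1 Q.2) (by
    intro Q
    rw [hstab]
    exact hdiv Q.1 Q.2)
  have e : ∑ᶠ Q ∈ QH p π G', T Q = ∑ Q : QH p π G', T Q.1 := by
    rw [← finsum_set_coe_eq_finsum_mem (QH p π G'), finsum_eq_sum_of_fintype]
  rw [e]
  exact key

end Pool.Agent.KZ
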